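import Mathlib
import Pool.Agent.D0H19.SL.Stm
import Pool.Agent.D0H41.SF.Basic

/-!
# Project SL, module LOC2
-/

set_option autoImplicit false

open Polynomial

namespace Pool.Agent.D0H10.SL

open Pool.Agent.D0H41.SF Pool.Agent.D0H41.SG Pool.Agent.D0H19.SL

/-- an integer close to a `p`-adic integer -/
theorem exists_int_close (p : ℕ) [Fact p.Prime] (x : ℚ_[p]) (hx : ‖x‖ ≤ 1) (t : ℕ) :
    ∃ b : ℤ, ‖(b : ℚ_[p]) - x‖ ≤ (p : ℝ) ^ (-t : ℤ) := by
  let y : ℤ_[p] := ⟨x, hx⟩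
  refine ⟨(PadicInt.appr y t : ℕ), ?_⟩
  have h1 := (PadicInt.norm_le_pow_iff_mem_span_pow _ t).mpr (PadicInt.appr_spec t y)
  rw [norm_sub_rev]
  have h2 : ‖y - (PadicInt.appr y t : ℤ_[p])‖ = ‖x - (((PadicInt.appr y t : ℕ) : ℤ) : ℚ_[p])‖ := by
    rw [PadicInt.norm_def]
    push_cast
    rfl
  rw [← h2]
  exact h1

/-- **3 LOC2** -/
theorem t_LOC2 : S_NEAR → Pool.Agent.D0H19.SL.S_TRZ → S_LOC2 := by
  intro hN hT p _ n f hn hf hd hs
  obtain ⟨F, hF1, hF2, hF3, hF4, hF5, ⟨e⟩⟩ := hT p n f (by omega) hf hd hs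
  obtain ⟨ε, hε, H⟩ := hN p n F hF1 hF2 hF3
  have hp : 1 < (p : ℝ) := by exact_mod_cast (Fact.out : p.Prime).one_lt
  obtain ⟨t, ht⟩ := exists_pow_lt_of_lt_one hε (inv_lt_one_of_one_lt₀ hp)
  have ht' : (p : ℝ) ^ (-t : ℤ) ≤ ε := by
    rw [zpow_neg, zpow_natCast, ← inv_pow]
    exact ht.le
  choose b hb using fun i : Fin (n - 1) => exists_int_close p (F.coeff i) (hF4 i) t
  refine ⟨t, b, fun a ha => ?_⟩
  have hmon : ((pol n a).map (Int.castRingHom ℚ_[p])).Monic := (pol_monic n (by omega) a).map _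
  have hdeg : ((pol n a).map (Int.castRingHom ℚ_[p])).natDegree = n := by
    rw [(pol_monic n (by omega) a).natDegree_map, pol_natDegree n (by omega)]
  have hc : ∀ i, ‖((pol n a).map (Int.castRingHom ℚ_[p])).coeff i - F.coeff i‖ ≤ ε := by
    intro i
    by_cases h1 : i < n - 1
    · have h2 : ((pol n a).map (Int.castRingHom ℚ_[p])).coeff i = (a ⟨i, h1⟩ : ℚ_[p]) := by
        rw [coeff_map, ← pol_coeff n a ⟨i, h1⟩]
        rfl
      rw [h2]
      have h3 : ‖((a ⟨i, h1⟩ - b ⟨i, h1⟩ : ℤ) : ℚ_[p])‖ ≤ (p : ℝ) ^ (-t : ℤ) :=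
        (Padic.norm_int_le_pow_iff_dvd _ _).mpr (by exact_mod_cast ha ⟨i, h1⟩)
      have h4 : (a ⟨i, h1⟩ : ℚ_[p]) - F.coeff i =
          ((a ⟨i, h1⟩ - b ⟨i, h1⟩ : ℤ) : ℚ_[p]) + ((b ⟨i, h1⟩ : ℚ_[p]) - F.coeff i) := by
        push_cast
        ring
      rw [h4]
      exact (Padic.nonarchimedean _ _).trans (max_le (h3.trans ht') ((hb ⟨i, h1⟩).trans ht'))
    · have h2 : ((pol n a).map (Int.castRingHom ℚ_[p])).coeff i = F.coeff i := by
        rcases Nat.lt_trichotomy i n with h3 | h3 | h3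
        · have h4 : i = n - 1 := by omega
          rw [h4, hF5, coeff_map, pol_coeff_pred n (by omega), map_zero]
        · rw [h3]
          have h5 := hmon.coeff_natDegree
          have h6 := hF1.coeff_natDegree
          rw [hdeg] at h5
          rw [hF2] at h6
          rw [h5, h6]
        · rw [coeff_eq_zero_of_natDegree_lt (by rw [hdeg]; exact h3),
            coeff_eq_zero_of_natDegree_lt (by rw [hF2]; exact h3)]
      rw [h2, sub_self, norm_zero]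
      exact hε.le
  obtain ⟨e'⟩ := H _ hmon hdeg hc
  exact ⟨e'.trans e⟩

end Pool.Agent.D0H10.SL
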