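import Mathlib
import Pool.Agent.D0H19.SL.Stm

/-!
# Project SL, module PRIM: an etale algebra over a field of characteristic zero is `k[x] / (f)`
-/

set_option autoImplicit false

open Polynomial Module

namespace Pool.Agent.D0H10.SL

/-- a primitive element with a prescribed normalised trace -/
theorem exists_prim_trace {k : Type} [Field k] [CharZero k] {K : Type} [Field K] [Algebra k K]
    [FiniteDimensional k K] (c : k) :
    ∃ β : K, (minpoly k β).natDegree = finrank k K ∧ - (minpoly k β).nextCoeff = finrank k K * c := by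
  obtain ⟨α, hα⟩ := Field.exists_primitive_element k K
  have hd : 0 < finrank k K := finrank_pos
  have hd' : (finrank k K : k) ≠ 0 := by exact_mod_cast hd.ne'
  set β : K := α + algebraMap k K (c - Algebra.trace k K α / finrank k K) with hβ
  have hβtop : IntermediateField.adjoin k {β} = ⊤ := by
    rw [eq_top_iff, ← hα, IntermediateField.adjoin_simple_le_iff]
    have h1 : β ∈ IntermediateField.adjoin k {β} := IntermediateField.mem_adjoin_simple_self k β
    have h2 : algebraMap k K (c - Algebra.trace k K α / finrank k K) ∈ IntermediateField.adjoin k {β} :=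
      IntermediateField.algebraMap_mem _ _
    have h3 : α = β - algebraMap k K (c - Algebra.trace k K α / finrank k K) := by rw [hβ]; ring
    rw [h3]
    exact sub_mem h1 h2
  refine ⟨β, (Field.primitive_element_iff_minpoly_natDegree_eq k β).mp hβtop, ?_⟩
  have htr : Algebra.trace k K β = finrank k K * c := by
    rw [hβ, map_add, Algebra.trace_algebraMap, nsmul_eq_mul, mul_sub, mul_div_cancel₀ _ hd']
    ring
  rw [← htr, trace_eq_finrank_mul_minpoly_nextCoeff]
  have h1 : finrank (IntermediateField.adjoin k {β}) K = 1 := by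
    rw [hβtop]; exact IntermediateField.finrank_top
  rw [h1]; simp

theorem prod_case {k : Type} [Field k] [CharZero k] {ι : Type} [Fintype ι] (K : ι → Type)
    [∀ i, Field (K i)] [∀ i, Algebra k (K i)] [∀ i, FiniteDimensional k (K i)] :
    ∃ f : k[X], f.Monic ∧ f.natDegree = finrank k (∀ i, K i) ∧ f.Separable ∧
      Nonempty (AdjoinRoot f ≃ₐ[k] (∀ i, K i)) := by
  classical
  let c : ι ↪ k := (Fintype.equivFin ι).toEmbedding.trans (Fin.valEmbedding.trans ⟨Nat.cast, Nat.cast_injective⟩)
  choose β hβ1 hβ2 using fun i => exists_prim_trace (k := k) (K := K i) (c i)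
  have hint : ∀ i, IsIntegral k (β i) := fun i => Algebra.IsIntegral.isIntegral _
  have hne : ∀ i j, i ≠ j → minpoly k (β i) ≠ minpoly k (β j) := by
    intro i j hij h
    have h1 : finrank k (K i) = finrank k (K j) := by rw [← hβ1, ← hβ1, h]
    have h2 : (finrank k (K i) : k) * c i = finrank k (K j) * c j := by rw [← hβ2, ← hβ2, h]
    rw [h1] at h2
    have hd : 0 < finrank k (K j) := finrank_pos
    have hd' : (finrank k (K j) : k) ≠ 0 := by exact_mod_cast hd.ne'
    exact hij (c.injective (mul_left_cancel₀ hd' h2))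
  have hcop : Pairwise (Function.onFun IsCoprime (fun i => minpoly k (β i))) := by
    intro i j hij
    refine ((minpoly.irreducible (hint i)).coprime_iff_not_dvd).mpr fun hdvd => hne i j hij ?_
    exact eq_of_monic_of_associated (minpoly.monic (hint i)) (minpoly.monic (hint j))
      ((minpoly.irreducible (hint i)).associated_of_dvd (minpoly.irreducible (hint j)) hdvd)
  set f : k[X] := ∏ i, minpoly k (β i) with hf
  have hmon : f.Monic := monic_prod_of_monic _ _ fun i _ => minpoly.monic (hint i)
  have hdeg : f.natDegree = finrank k (∀ i, K i) := by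
    rw [hf, natDegree_prod_of_monic _ _ fun i _ => minpoly.monic (hint i), Module.finrank_pi_fintype]
    exact Finset.sum_congr rfl fun i _ => hβ1 i
  have hsep : f.Separable := separable_prod hcop fun i => (minpoly.irreducible (hint i)).separable
  refine ⟨f, hmon, hdeg, hsep, ?_⟩
  have hev : aeval (β : ∀ i, K i) f = 0 := by
    funext i
    rw [Pi.zero_apply]
    have : aeval (β : ∀ i, K i) f i = aeval (β i) f := (aeval_algHom_apply (Pi.evalAlgHom k K i) β f).symm
    rw [this, hf, map_prod]
    exact Finset.prod_eq_zero (Finset.mem_univ i) (minpoly.aeval k (β i))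
  let φ : AdjoinRoot f →ₐ[k] (∀ i, K i) := AdjoinRoot.liftAlgHom f (Algebra.ofId k _) β (by
    simpa [aeval_def] using hev)
  have hinj : Function.Injective φ := by
    rw [injective_iff_map_eq_zero]
    intro x hx
    obtain ⟨g, rfl⟩ := AdjoinRoot.mk_surjective x
    rw [AdjoinRoot.mk_eq_zero]
    have h1 : ∀ i, minpoly k (β i) ∣ g := by
      intro i
      apply minpoly.dvd
      have h2 : φ (AdjoinRoot.mk f g) = aeval (β : ∀ i, K i) g := by
        simp [φ, aeval_def, AdjoinRoot.liftAlgHom_mk]
      rw [h2] at hx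
      have h3 := congrFun hx i
      have : aeval (β : ∀ i, K i) g i = aeval (β i) g := (aeval_algHom_apply (Pi.evalAlgHom k K i) β g).symm
      rw [← this, h3]; rfl
    exact Finset.prod_dvd_of_coprime (fun i _ j _ hij => hcop hij) fun i _ => h1 i
  have hfin : finrank k (AdjoinRoot f) = finrank k (∀ i, K i) := by
    rw [← hdeg, (AdjoinRoot.powerBasis' hmon).finrank, AdjoinRoot.powerBasis'_dim]
  have : FiniteDimensional k (AdjoinRoot f) := (AdjoinRoot.powerBasis' hmon).finite
  have hbij : Function.Bijective φ :=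
    ⟨hinj, (LinearMap.injective_iff_surjective_of_finrank_eq_finrank (f := φ.toLinearMap) hfin).mp hinj⟩
  exact ⟨AlgEquiv.ofBijective φ hbij⟩

/-- **PRIM** -/
theorem prim (k : Type) [Field k] [CharZero k] (A : Type) [CommRing A] [Algebra k A] [Module.Finite k A]
    [IsReduced A] : ∃ f : k[X], f.Monic ∧ f.natDegree = Module.finrank k A ∧ f.Separable ∧
      Nonempty (AdjoinRoot f ≃ₐ[k] A) := by
  classical
  have : IsArtinianRing A := IsArtinianRing.of_finite k A
  have : Fintype (MaximalSpectrum A) := Fintype.ofFinite _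
  let _inst : ∀ I : MaximalSpectrum A, Field (A ⧸ I.asIdeal) := fun I => Ideal.Quotient.field I.asIdeal
  obtain ⟨f, h1, h2, h3, ⟨e⟩⟩ := prod_case (k := k) (fun I : MaximalSpectrum A => A ⧸ I.asIdeal)
  let e' : A ≃ₐ[k] (∀ I : MaximalSpectrum A, A ⧸ I.asIdeal) := (IsArtinianRing.equivPi A).restrictScalars k
  refine ⟨f, h1, ?_, h3, ⟨e.trans e'.symm⟩⟩
  rw [h2]
  exact e'.toLinearEquiv.finrank_eq.symm

/-- **5 PRIM** -/
theorem t_PRIM : Pool.Agent.D0H19.SL.S_PRIM := fun k _ _ A _ _ _ _ => prim k A

end Pool.Agent.D0H10.SL
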